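import Mathlib
import Pool.Agent.N610.MS.CNT
import Pool.Agent.N610.MS.BON
import Pool.Agent.N610.MS.LEG

set_option autoImplicit false

/-!
# The deterministic part of the Maier matrix, with explicit dependence on the degree (helper72)
-/

namespace Pool.Agent.J4H72.MF

open Finset Filter Topology
open Pool.Agent.N610.MS
open Pool.Agent.N610.MS.CNTaux

/-- size of the deviation -/
noncomputable def dl (k : ℕ) : ℝ := 1 / (4 * ((k : ℝ) + 1)) ^ (2 * (k + 1))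

lemma dl_pos (k : ℕ) : 0 < dl k := by unfold dl; positivity

lemma main_term (k : ℕ) (hk : 1 ≤ k) (s : ℝ) (hs : 1 / (8 * ((k : ℝ) + 1)) ≤ s) :
    4 * dl k ≤ s ^ (k + 1) / (k + 1).factorial := by
  have hk1 : (0 : ℝ) < (k : ℝ) + 1 := by positivity
  have hf : (0 : ℝ) < ((k + 1).factorial : ℝ) := by positivity
  have hf2 : ((k + 1).factorial : ℝ) ≤ ((k : ℝ) + 1) ^ (k + 1) := by
    have := Nat.factorial_le_pow (k + 1)
    have h2 : (((k + 1).factorial : ℕ) : ℝ) ≤ (((k + 1) ^ (k + 1) : ℕ) : ℝ) := by exact_mod_cast this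
    push_cast at h2
    exact h2
  have h1 : (1 / (8 * ((k : ℝ) + 1))) ^ (k + 1) ≤ s ^ (k + 1) :=
    pow_le_pow_left₀ (by positivity) hs _
  have h2 : (1 / (8 * ((k : ℝ) + 1))) ^ (k + 1) / ((k : ℝ) + 1) ^ (k + 1) ≤
      s ^ (k + 1) / (k + 1).factorial := by
    apply div_le_div₀ (le_trans (by positivity) h1) h1 hf hf2
  refine le_trans ?_ h2
  have h3 : (1 / (8 * ((k : ℝ) + 1))) ^ (k + 1) / ((k : ℝ) + 1) ^ (k + 1) = 2 ^ (k + 1) * dl k := by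
    unfold dl
    have e1 : (4 * ((k : ℝ) + 1)) ^ (2 * (k + 1)) = (16 * ((k : ℝ) + 1) ^ 2) ^ (k + 1) := by
      rw [pow_mul (4 * ((k : ℝ) + 1)) 2 (k + 1)]
      congr 1
      ring
    rw [e1, ← one_div_pow, ← mul_pow, ← div_pow]
    congr 1
    field_simp
    norm_num
  rw [h3]
  have h4 : (2 : ℝ) ^ 2 ≤ 2 ^ (k + 1) := pow_le_pow_right₀ (by norm_num) (by omega)
  have := dl_pos k
  nlinarith

/-- the deterministic part -/
lemma det (P : Finset ℕ) (hP : ∀ p ∈ P, p.Prime) (k : ℕ) (hk : 1 ≤ k) (y : ℝ) (hy : 0 < y)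
    (hlo : 1 / (8 * ((k : ℝ) + 1)) ≤ ∑ p ∈ P, 1 / (p : ℝ)) (hhi : ∑ p ∈ P, 1 / (p : ℝ) ≤ 1 / 4)
    (hQ : ((k : ℝ) + 1) * ∑ p ∈ P, (1 / (p : ℝ)) ^ 2 ≤ dl k)
    (hc : ((P.card : ℝ) + 1) ^ k ≤ dl k / 2 * y)
    (hT : ∀ T ∈ P.powersetCard (k + 1), y < ∏ p ∈ T, (p : ℝ)) :
    1 / 2 ≤ ∏ p ∈ P, (1 - 1 / (p : ℝ)) ∧ 2 * dl k ≤ (-1) ^ k * (rel P y - 1) := by
  set δ := dl k with hδ
  have hδ0 : 0 < δ := dl_pos k
  set x : ℕ → ℝ := fun p => 1 / (p : ℝ) with hxdef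
  have hx : ∀ p ∈ P, 0 ≤ x p ∧ x p ≤ 1 := by
    intro p hp
    have hp1 : (1 : ℝ) ≤ p := by exact_mod_cast (hP p hp).one_lt.le
    refine ⟨by positivity, ?_⟩
    rw [hxdef]
    exact (div_le_one (by linarith)).mpr hp1
  obtain ⟨hb1, hb2, hb3⟩ := t_BON P x hx
  have hBprod : ∏ p ∈ P, (1 - 1 / (p : ℝ)) = ∏ p ∈ P, (1 - x p) := rfl
  have hsum : ∑ p ∈ P, 1 / (p : ℝ) = ∑ p ∈ P, x p := rfl
  have hsum2 : ∑ p ∈ P, (1 / (p : ℝ)) ^ 2 = ∑ p ∈ P, x p ^ 2 := rfl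
  obtain ⟨hB1, hB2, hB3⟩ := one_sub_sum_le P x hx
  rw [hBprod]
  have hmain := main_term k hk _ hlo
  rw [hsum] at hlo hhi hmain
  rw [hsum2] at hQ
  set s := ∑ p ∈ P, x p with hs
  set Q := ∑ p ∈ P, x p ^ 2 with hQdef
  set B := ∏ p ∈ P, (1 - x p) with hB
  set e1 := e P x (k + 1) with he1
  set e2 := e P x (k + 1 + 1) with he2
  have hkR : (1 : ℝ) ≤ k := by exact_mod_cast hk
  have hfpos : (0 : ℝ) < (k + 1).factorial := by positivity
  set m := s ^ (k + 1) / ((k + 1).factorial : ℝ) with hm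
  have he1lo : m - δ ≤ e1 := by
    have h3 := hb3 (by linarith) (k + 1)
    have h5 : (((k + 1 : ℕ) : ℝ)) = (k : ℝ) + 1 := by push_cast; ring
    rw [h5] at h3
    linarith
  have he2hi : e2 ≤ m / 12 := by
    refine (hb2 (k + 1 + 1)).trans ?_
    have h3 : ((k + 1 + 1).factorial : ℝ) = ((k : ℝ) + 2) * (k + 1).factorial := by
      rw [Nat.factorial_succ (k + 1)]
      push_cast
      ring
    rw [h3, hm]
    have h4 : s ^ (k + 1 + 1) / (((k : ℝ) + 2) * (k + 1).factorial) =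
        s ^ (k + 1) / ((k + 1).factorial : ℝ) * (s / (k + 2)) := by
      rw [pow_succ s (k + 1)]
      field_simp
    rw [h4]
    have h5 : s / (k + 2) ≤ 1 / 12 := by
      rw [div_le_iff₀ (by positivity)]
      linarith
    have h6 : 0 ≤ s ^ (k + 1) / ((k + 1).factorial : ℝ) := by
      have : 0 ≤ s := le_trans (by positivity) hlo
      positivity
    calc s ^ (k + 1) / ((k + 1).factorial : ℝ) * (s / (k + 2)) ≤
        s ^ (k + 1) / ((k + 1).factorial : ℝ) * (1 / 12) := mul_le_mul_of_nonneg_left h5 h6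
      _ = _ := by ring
  have hBhalf : 1 / 2 ≤ B := by linarith
  have hBpos : 0 < B := by linarith
  obtain ⟨hk3, hk4⟩ := hb1 (k + 1)
  have hsq : ((-1 : ℝ) ^ k) * (-1) ^ k = 1 := by
    rw [← mul_pow]; norm_num
  have halt := alt_succ P x k
  set ak := alt P x k with hak
  set ak1 := alt P x (k + 1) with hak1
  have hlow : e1 - e2 ≤ (-1) ^ k * (ak - B) := by
    have h3 : (-1 : ℝ) ^ (k + 1) * (ak1 - B) = - ((-1) ^ k * (ak - B)) + e1 := by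
      rw [halt, pow_succ]
      linear_combination (e1) * hsq
    rw [h3] at hk4
    linarith
  have hσabs : |(-1 : ℝ) ^ k| = 1 := by
    rw [abs_pow, abs_neg, abs_one, one_pow]
  refine ⟨hBhalf, ?_⟩
  have h3 := (t_LEG t_BON P hP k y hy.le).2 hT
  have h4 : |(V P ⌊y⌋₊ : ℝ) - y * ak| ≤ δ / 2 * y := h3.trans hc
  have h5 : |(V P ⌊y⌋₊ : ℝ) / y - ak| ≤ δ / 2 := by
    have h6 : (V P ⌊y⌋₊ : ℝ) / y - ak = ((V P ⌊y⌋₊ : ℝ) - y * ak) / y := by field_simp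
    rw [h6, abs_div, abs_of_pos hy, div_le_iff₀ hy]
    exact h4
  have h6 : -(δ / 2) ≤ (-1) ^ k * ((V P ⌊y⌋₊ : ℝ) / y - ak) := by
    have h7 : |(-1) ^ k * ((V P ⌊y⌋₊ : ℝ) / y - ak)| ≤ δ / 2 := by
      rw [abs_mul, hσabs, one_mul]; exact h5
    exact (abs_le.mp h7).1
  have hrel : rel P y - 1 = ((V P ⌊y⌋₊ : ℝ) / y - B) / B := by
    have : rel P y = (V P ⌊y⌋₊ : ℝ) / (y * B) := rfl
    rw [this]
    field_simp
  rw [hrel, ← mul_div_assoc, le_div_iff₀ hBpos]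
  have h7 : (-1) ^ k * ((V P ⌊y⌋₊ : ℝ) / y - B) =
      (-1) ^ k * ((V P ⌊y⌋₊ : ℝ) / y - ak) + (-1) ^ k * (ak - B) := by ring
  rw [h7]
  have h8 : 2 * δ * B ≤ 2 * δ * 1 := mul_le_mul_of_nonneg_left hB2 (by linarith)
  linarith

end Pool.Agent.J4H72.MF
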