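import Mathlib
import Pool.Agent.J4H72.MF.Det
import Pool.Agent.Helper923.HMertens

set_option autoImplicit false

/-!
# The choice of the primes, with explicit dependence on the degree (helper72)
-/

namespace Pool.Agent.J4H72.MF

open Finset Filter Topology
open Pool.Agent.N610.MS
open Pool.Agent.N610.MS.CNTaux
open Pool.Agent.H378R2 (WW PW GoodS yy)

lemma half_floor {x : ℝ} (hx : 1 ≤ x) : x / 2 ≤ (⌊x⌋₊ : ℝ) := by
  have h1 := Nat.lt_floor_add_one x
  have h2 : (1 : ℝ) ≤ (⌊x⌋₊ : ℝ) := by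
    have : 1 ≤ ⌊x⌋₊ := Nat.le_floor (by simpa using hx)
    exact_mod_cast this
  linarith

/-- the sum of the reciprocals of the primes of the block -/
lemma block_sum (Cm : ℝ) (hCm : 0 ≤ Cm)
    (hM : ∀ a b : ℕ, 2 ≤ a → a ≤ b → |∑ p ∈ (Finset.Ioc a b).filter Nat.Prime, (1 : ℝ) / p
      - Real.log (Real.log b / Real.log a)| ≤ Cm / Real.log a)
    (s0 z : ℝ) (hs0 : 0 < s0) (hs8 : s0 ≤ 1 / 8) (hz : 16 ≤ Real.log z) (hz0 : 0 < z) :
    |∑ p ∈ (Finset.Ioc ⌊z ^ Real.exp (-s0)⌋₊ ⌊z⌋₊).filter Nat.Prime, (1 : ℝ) / p - s0| ≤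
      (2 * Cm + 1) / Real.log z := by
  set Λ := Real.log z with hΛ
  set E := Real.exp (-s0) with hE
  have hE1 : 1 - s0 ≤ E := by
    rw [hE]
    linarith [Real.add_one_le_exp (-s0)]
  have hE2 : E < 1 := by
    rw [hE, ← Real.exp_zero]
    exact Real.exp_lt_exp.mpr (by linarith)
  have hE0 : 0 < E := Real.exp_pos _
  have hE78 : 7 / 8 ≤ E := by linarith
  have hlog2 : Real.log 2 ≤ 3 / 4 := by have := Real.log_two_lt_d9; linarith
  have hlog20 : 0 < Real.log 2 := Real.log_pos (by norm_num)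
  have hz1 : 1 < z := by
    have h1 : 0 < Real.log z := by linarith
    exact (Real.log_pos_iff hz0.le).1 h1
  set w := z ^ E with hw
  have hw1 : 1 < w := Real.one_lt_rpow hz1 hE0
  have hw0 : 0 < w := by linarith
  have hlogw : Real.log w = E * Λ := by rw [hw, Real.log_rpow hz0]
  have hEΛ : 7 / 8 * Λ ≤ E * Λ := by
    apply mul_le_mul_of_nonneg_right hE78; linarith
  have hEΛ1 : E * Λ ≤ Λ := by
    nlinarith
  set M := ⌊w⌋₊ with hMdef
  set N := ⌊z⌋₊ with hNdef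
  have hwz : w ≤ z := by
    calc w = z ^ E := rfl
      _ ≤ z ^ (1 : ℝ) := Real.rpow_le_rpow_of_exponent_le hz1.le hE2.le
      _ = z := Real.rpow_one z
  have hMN : M ≤ N := Nat.floor_le_floor hwz
  have hM0 : w / 2 ≤ (M : ℝ) := half_floor hw1.le
  have hN0 : z / 2 ≤ (N : ℝ) := half_floor hz1.le
  have hMw : (M : ℝ) ≤ w := Nat.floor_le hw0.le
  have hNz : (N : ℝ) ≤ z := Nat.floor_le hz0.le
  have hM0' : (0 : ℝ) < M := by linarith
  have hN0' : (0 : ℝ) < N := by linarith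
  have lM1 : E * Λ - Real.log 2 ≤ Real.log M := by
    rw [← hlogw, ← Real.log_div hw0.ne' (by norm_num)]
    exact Real.log_le_log (by positivity) hM0
  have lM2 : Real.log M ≤ E * Λ := by
    rw [← hlogw]
    exact Real.log_le_log hM0' hMw
  have lN1 : Λ - Real.log 2 ≤ Real.log N := by
    rw [hΛ, ← Real.log_div hz0.ne' (by norm_num)]
    exact Real.log_le_log (by positivity) hN0
  have lN2 : Real.log N ≤ Λ := Real.log_le_log hN0' hNz
  have lMpos : 3 / 4 * Λ ≤ Real.log M := by linarith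
  have lNpos : 3 / 4 * Λ ≤ Real.log N := by linarith
  have hM2 : 2 ≤ M := by
    have h1 : Real.log 2 < Real.log M := by linarith
    have h2 : (2 : ℝ) < M := (Real.log_lt_log_iff (by norm_num) hM0').1 h1
    exact_mod_cast h2.le
  have hmer := hM M N hM2 hMN
  have hlMp : 0 < Real.log M := by linarith
  have hlNp : 0 < Real.log N := by linarith
  -- the ratio
  have hratio : Real.log (Real.log N / Real.log M) = s0 + Real.log (E * Real.log N / Real.log M) := by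
    rw [mul_div_assoc, Real.log_mul hE0.ne' (by positivity), hE, Real.log_exp]
    ring
  have hy0 : 0 < E * Real.log N / Real.log M := by positivity
  have hup : Real.log (E * Real.log N / Real.log M) ≤ 1 / Λ := by
    have h1 := Real.log_le_sub_one_of_pos hy0
    have h2 : E * Real.log N / Real.log M - 1 ≤ 1 / Λ := by
      rw [div_sub_one hlMp.ne', div_le_div_iff₀ hlMp (by linarith)]
      have h3 : E * Real.log N ≤ E * Λ := mul_le_mul_of_nonneg_left lN2 hE0.le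
      have h4 : E * Real.log N - Real.log M ≤ 3 / 4 := by linarith
      have h5 := mul_le_mul_of_nonneg_right h4 (show (0 : ℝ) ≤ Λ by linarith)
      linarith
    linarith
  have hlow : -(1 / Λ) ≤ Real.log (E * Real.log N / Real.log M) := by
    have h1 := Real.one_sub_inv_le_log_of_pos hy0
    have h2 : (E * Real.log N / Real.log M)⁻¹ - 1 ≤ 1 / Λ := by
      rw [inv_div, div_sub_one (by positivity), div_le_div_iff₀ (by positivity) (by linarith)]
      have h3 : E * (Λ - Real.log 2) ≤ E * Real.log N := mul_le_mul_of_nonneg_left lN1 hE0.le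
      have h3' : E * Real.log 2 ≤ Real.log 2 := by nlinarith
      have h4 : Real.log M - E * Real.log N ≤ Real.log 2 := by
        linarith
      have h5 : (Real.log M - E * Real.log N) * Λ ≤ Real.log 2 * Λ :=
        mul_le_mul_of_nonneg_right h4 (by linarith)
      have h6 : Real.log 2 * Λ ≤ 1 * (E * Real.log N) := by
        have h7 : 13 / 16 * Λ ≤ E * Real.log N := by
          have h8 : 15 / 16 * Λ ≤ Real.log N := by linarith
          calc 13 / 16 * Λ ≤ 7 / 8 * (15 / 16 * Λ) := by linarith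
            _ ≤ E * Real.log N := by
              apply mul_le_mul hE78 h8 (by linarith) hE0.le
        have h9 : Real.log 2 * Λ ≤ 3 / 4 * Λ := mul_le_mul_of_nonneg_right hlog2 (by linarith)
        linarith
      linarith
    linarith
  have herr : Cm / Real.log M ≤ 2 * Cm / Λ := by
    rw [div_le_div_iff₀ hlMp (by linarith)]
    nlinarith
  rw [hratio] at hmer
  have e1 : (2 * Cm + 1) / Λ = 2 * Cm / Λ + 1 / Λ := by ring
  rw [abs_le] at hmer ⊢
  rw [e1]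
  constructor <;> linarith

lemma growth (C0 k : ℕ) (z : ℝ) (hC : 10 ≤ C0) (hk : 1 ≤ k)
    (hz : ((C0 * k : ℕ) : ℝ) ^ (C0 * k) ≤ z) :
    (C0 : ℝ) * k ≤ Real.log z ∧ 2 * ((k : ℝ) + 1) ≤ dl k * z ^ (1 / 2 : ℝ) := by
  have hkR : (1 : ℝ) ≤ k := by exact_mod_cast hk
  have hCR : (10 : ℝ) ≤ C0 := by exact_mod_cast hC
  have hc10 : (10 : ℝ) ≤ ((C0 * k : ℕ) : ℝ) := by push_cast; nlinarith
  have hpos : (0 : ℝ) < ((C0 * k : ℕ) : ℝ) ^ (C0 * k) := by positivity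
  have hz0 : 0 < z := lt_of_lt_of_le hpos hz
  constructor
  · have h1 : Real.log (((C0 * k : ℕ) : ℝ) ^ (C0 * k)) ≤ Real.log z := Real.log_le_log hpos hz
    rw [Real.log_pow] at h1
    have h2 : 1 ≤ Real.log ((C0 * k : ℕ) : ℝ) := by
      rw [← Real.log_exp 1]
      apply Real.log_le_log (Real.exp_pos _)
      have := Real.exp_one_lt_d9
      linarith
    have h3 : ((C0 * k : ℕ) : ℝ) * 1 ≤ ((C0 * k : ℕ) : ℝ) * Real.log ((C0 * k : ℕ) : ℝ) :=
      mul_le_mul_of_nonneg_left h2 (by positivity)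
    push_cast at h1 h3 ⊢
    linarith
  · -- z ≥ (8k)^(10k)
    have h1 : ((8 * k : ℝ)) ^ (10 * k) ≤ z := by
      refine le_trans ?_ hz
      calc ((8 * k : ℝ)) ^ (10 * k) ≤ ((C0 * k : ℕ) : ℝ) ^ (10 * k) := by
            apply pow_le_pow_left₀ (by positivity)
            push_cast
            nlinarith
        _ ≤ ((C0 * k : ℕ) : ℝ) ^ (C0 * k) := by
            apply pow_le_pow_right₀ (by linarith)
            exact Nat.mul_le_mul_right k hC
    have h2 : ((8 * k : ℝ)) ^ (5 * k) ≤ z ^ (1 / 2 : ℝ) := by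
      have h3 : (((8 * k : ℝ)) ^ (10 * k)) ^ (1 / 2 : ℝ) ≤ z ^ (1 / 2 : ℝ) :=
        Real.rpow_le_rpow (by positivity) h1 (by norm_num)
      refine le_trans (le_of_eq ?_) h3
      have h4 : ((8 * k : ℝ)) ^ (10 * k) = (((8 * k : ℝ)) ^ (5 * k)) ^ 2 := by
        rw [← pow_mul]; congr 1; ring
      rw [h4, ← Real.sqrt_eq_rpow, Real.sqrt_sq (by positivity)]
    have h3 : 2 * ((k : ℝ) + 1) * (4 * ((k : ℝ) + 1)) ^ (2 * (k + 1)) ≤ ((8 * k : ℝ)) ^ (5 * k) := by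
      have h4 : 4 * ((k : ℝ) + 1) ≤ 8 * k := by linarith
      calc 2 * ((k : ℝ) + 1) * (4 * ((k : ℝ) + 1)) ^ (2 * (k + 1)) ≤
            (8 * k) * (8 * k) ^ (2 * (k + 1)) := by
              apply mul_le_mul (by linarith) (pow_le_pow_left₀ (by positivity) h4 _) (by positivity)
                (by positivity)
        _ = (8 * k : ℝ) ^ (2 * (k + 1) + 1) := by rw [pow_succ]; ring
        _ ≤ (8 * k : ℝ) ^ (5 * k) := by
            apply pow_le_pow_right₀ (by linarith)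
            omega
    unfold dl
    rw [one_div_mul_eq_div, le_div_iff₀ (by positivity)]
    linarith

theorem choice : ∃ C0 : ℕ, 10 ≤ C0 ∧ ∀ (k : ℕ) (z X : ℝ), 1 ≤ k →
    ((C0 * k : ℕ) : ℝ) ^ (C0 * k) ≤ z → 1000 * z ≤ Real.log X → ∀ (S : Finset ℕ) (ps : ℕ),
      GoodS X S → ∃ P : Finset ℕ, P ⊆ PW X S ps ∧
        ((∏ p ∈ P, p : ℕ) : ℝ) ≤ Real.exp (Real.log 4 * z) ∧
        1 / 2 ≤ ∏ p ∈ P, (1 - 1 / (p : ℝ)) ∧
        2 * dl k ≤ (-1) ^ k * (rel P (z ^ ((k : ℝ) + 1 / 2)) - 1) := by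
  obtain ⟨Cm, hCm, hmer⟩ := Pool.Agent.Helper923.HMertens.mertens_ratio
  obtain ⟨C0, hC0⟩ := exists_nat_gt (max 256 (32 * (2 * Cm + 1)))
  have hC0a : (256 : ℝ) < C0 := (le_max_left _ _).trans_lt hC0
  have hC0b : 32 * (2 * Cm + 1) < C0 := (le_max_right _ _).trans_lt hC0
  have hC10 : 10 ≤ C0 := by
    have : (10 : ℝ) ≤ C0 := by linarith
    exact_mod_cast this
  refine ⟨C0, hC10, ?_⟩
  intro k z X hk hz hzX S ps hS
  obtain ⟨g1, g2⟩ := growth C0 k z hC10 hk hz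
  have hkR : (1 : ℝ) ≤ k := by exact_mod_cast hk
  have hz0 : 0 < z := by
    have hCR : (10 : ℝ) ≤ C0 := by linarith
    have : (0 : ℝ) < ((C0 * k : ℕ) : ℝ) ^ (C0 * k) := by
      apply pow_pos
      push_cast
      positivity
    linarith
  set Λ := Real.log z with hΛ
  have hΛk : (C0 : ℝ) * ((k : ℝ) + 1) ≤ 2 * Λ := by nlinarith
  have hΛ128 : 128 * ((k : ℝ) + 1) ≤ Λ := by nlinarith
  have hΛm : 16 * (2 * Cm + 1) * ((k : ℝ) + 1) ≤ Λ := by nlinarith
  have hΛ16 : 16 ≤ Λ := by linarith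
  have hΛ0 : 0 < Λ := by linarith
  have hz1 : 1 < z := (Real.log_pos_iff hz0.le).1 (by rw [← hΛ]; exact hΛ0)
  obtain ⟨s0, hs0d⟩ : ∃ s0 : ℝ, s0 = 1 / (4 * ((k : ℝ) + 1)) := ⟨_, rfl⟩
  have hs0 : 0 < s0 := by rw [hs0d]; positivity
  have hs8 : s0 ≤ 1 / 8 := by
    rw [hs0d]
    apply one_div_le_one_div_of_le (by norm_num)
    linarith
  have hs4 : s0 / 4 = 1 / (16 * ((k : ℝ) + 1)) := by
    rw [hs0d]; field_simp; norm_num
  have hblock := block_sum Cm hCm hmer s0 z hs0 hs8 hΛ16 hz0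
  rw [← hΛ] at hblock
  have hb2 : (2 * Cm + 1) / Λ ≤ s0 / 4 := by
    rw [hs4, div_le_div_iff₀ hΛ0 (by positivity)]
    linarith
  obtain ⟨E, hE⟩ : ∃ E : ℝ, E = Real.exp (-s0) := ⟨_, rfl⟩
  rw [← hE] at hblock
  have hE1 : 1 - s0 ≤ E := by
    rw [hE]
    linarith [Real.add_one_le_exp (-s0)]
  have hE2 : E < 1 := by
    rw [hE, ← Real.exp_zero]
    exact Real.exp_lt_exp.mpr (by linarith)
  have hE0 : 0 < E := by rw [hE]; exact Real.exp_pos _
  set w := z ^ E with hw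
  have hw1 : 1 < w := Real.one_lt_rpow hz1 hE0
  have hw0 : 0 < w := by linarith
  have hwhalf : z ^ (1 / 2 : ℝ) ≤ w := Real.rpow_le_rpow_of_exponent_le hz1.le (by linarith)
  set M := ⌊w⌋₊ with hM
  set N := ⌊z⌋₊ with hN
  have hMlt : ∀ p : ℕ, M < p → w ≤ (p : ℝ) := by
    intro p hp
    exact ((Nat.floor_lt hw0.le).mp hp).le
  obtain ⟨P, hPdef⟩ : ∃ P : Finset ℕ,
      P = (Ioc M N).filter (fun p => p.Prime ∧ p ∉ S ∧ p ≠ ps) := ⟨_, rfl⟩
  have hPmem : ∀ p ∈ P, M < p ∧ p ≤ N ∧ p.Prime ∧ p ∉ S ∧ p ≠ ps := by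
    intro p hp
    rw [hPdef, mem_filter, mem_Ioc] at hp
    exact ⟨hp.1.1, hp.1.2, hp.2.1, hp.2.2.1, hp.2.2.2⟩
  have hrem := removed S ps M N _ hw0 hMlt
  rw [← hPdef] at hrem
  have hsubfull : P ⊆ (Ioc M N).filter Nat.Prime := by
    intro p hp
    obtain ⟨g1, g2, g3, _, _⟩ := hPmem p hp
    rw [mem_filter, mem_Ioc]
    exact ⟨⟨g1, g2⟩, g3⟩
  have hup : ∑ p ∈ P, 1 / (p : ℝ) ≤ ∑ p ∈ (Ioc M N).filter Nat.Prime, 1 / (p : ℝ) :=
    sum_le_sum_of_subset_of_nonneg hsubfull (fun p _ _ => by positivity)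
  -- removed mass
  have hLL : Λ ≤ Real.log (Real.log X) := by
    rw [hΛ]
    apply Real.log_le_log hz0
    linarith
  have hSsum : ∑ q ∈ S, (1 : ℝ) / q ≤ 6 / Λ := by
    refine hS.2.trans ?_
    apply div_le_div_of_nonneg_left (by norm_num) hΛ0
    nlinarith
  have hwinv : 1 / w ≤ 2 / Λ := by
    have h1 : Λ / 2 ≤ z ^ (1 / 2 : ℝ) := by
      rw [Real.rpow_def_of_pos hz0, ← hΛ]
      have := Real.add_one_le_exp (Λ * (1 / 2))
      linarith
    rw [div_le_div_iff₀ hw0 hΛ0]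
    linarith
  have h8 : 8 / Λ ≤ s0 / 4 := by
    rw [hs4, div_le_div_iff₀ hΛ0 (by positivity)]
    linarith
  have h8' : 6 / Λ + 2 / Λ = 8 / Λ := by ring
  rw [abs_le] at hblock
  have hslo : 1 / (8 * ((k : ℝ) + 1)) ≤ ∑ p ∈ P, 1 / (p : ℝ) := by
    have h3 : 1 / (8 * ((k : ℝ) + 1)) = s0 - s0 / 4 - s0 / 4 := by
      rw [hs0d]; field_simp; norm_num
    rw [h3]
    linarith [hblock.1]
  have hshi : ∑ p ∈ P, 1 / (p : ℝ) ≤ 1 / 4 := by
    linarith [hblock.2]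
  have hQ : ((k : ℝ) + 1) * ∑ p ∈ P, (1 / (p : ℝ)) ^ 2 ≤ dl k := by
    have h3 : ∑ p ∈ P, (1 / (p : ℝ)) ^ 2 ≤ 1 / z ^ (1 / 2 : ℝ) := by
      have hzh : (0 : ℝ) < z ^ (1 / 2 : ℝ) := Real.rpow_pos_of_pos hz0 _
      calc ∑ p ∈ P, (1 / (p : ℝ)) ^ 2 ≤ ∑ p ∈ P, (1 / (p : ℝ)) * (1 / z ^ (1 / 2 : ℝ)) := by
            apply sum_le_sum
            intro p hp
            rw [sq]
            apply mul_le_mul_of_nonneg_left _ (by positivity)
            exact one_div_le_one_div_of_le hzh (hwhalf.trans (hMlt p (hPmem p hp).1))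
        _ = (∑ p ∈ P, 1 / (p : ℝ)) * (1 / z ^ (1 / 2 : ℝ)) := by rw [sum_mul]
        _ ≤ 1 * (1 / z ^ (1 / 2 : ℝ)) := mul_le_mul_of_nonneg_right (by linarith) (by positivity)
        _ = _ := one_mul _
    have hzh : (0 : ℝ) < z ^ (1 / 2 : ℝ) := Real.rpow_pos_of_pos hz0 _
    calc ((k : ℝ) + 1) * ∑ p ∈ P, (1 / (p : ℝ)) ^ 2 ≤ ((k : ℝ) + 1) * (1 / z ^ (1 / 2 : ℝ)) :=
          mul_le_mul_of_nonneg_left h3 (by linarith)
      _ ≤ dl k := by
          rw [mul_one_div, div_le_iff₀ hzh]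
          linarith
  have hcard : (P.card : ℝ) + 1 ≤ z := by
    have h3 : P.card + 1 ≤ N := by
      have h4 : P.card ≤ (Ioc M N).card := by
        apply card_le_card
        intro p hp
        rw [mem_Ioc]
        exact ⟨(hPmem p hp).1, (hPmem p hp).2.1⟩
      rw [Nat.card_Ioc] at h4
      have h5 : 1 ≤ M := Nat.le_floor (by simpa using hw1.le)
      have h6 : 1 ≤ N := Nat.le_floor (by simpa using hz1.le)
      omega
    have h4 : ((P.card : ℝ) + 1) ≤ N := by exact_mod_cast h3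
    exact h4.trans (Nat.floor_le hz0.le)
  have hy : 0 < z ^ ((k : ℝ) + 1 / 2) := Real.rpow_pos_of_pos hz0 _
  have hc : ((P.card : ℝ) + 1) ^ k ≤ dl k / 2 * z ^ ((k : ℝ) + 1 / 2) := by
    rw [Real.rpow_add hz0, Real.rpow_natCast]
    have h3 : ((P.card : ℝ) + 1) ^ k ≤ z ^ k := pow_le_pow_left₀ (by positivity) hcard _
    have h4 : 1 ≤ dl k / 2 * z ^ (1 / 2 : ℝ) := by linarith
    have h5 : 0 < z ^ k := by positivity
    calc ((P.card : ℝ) + 1) ^ k ≤ z ^ k * 1 := by linarith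
      _ ≤ z ^ k * (dl k / 2 * z ^ (1 / 2 : ℝ)) := mul_le_mul_of_nonneg_left h4 h5.le
      _ = _ := by ring
  have hT : ∀ T ∈ P.powersetCard (k + 1), z ^ ((k : ℝ) + 1 / 2) < ∏ p ∈ T, (p : ℝ) := by
    intro T hT
    obtain ⟨hT1, hT2⟩ := mem_powersetCard.mp hT
    have h3 : w ^ (k + 1) ≤ ∏ p ∈ T, (p : ℝ) := by
      rw [← hT2, ← prod_const]
      apply prod_le_prod (fun _ _ => hw0.le)
      intro p hp
      exact hMlt p (hPmem p (hT1 hp)).1
    refine lt_of_lt_of_le ?_ h3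
    rw [hw, ← Real.rpow_natCast, ← Real.rpow_mul hz0.le]
    apply Real.rpow_lt_rpow_of_exponent_lt hz1
    push_cast
    have h4 : (1 - s0) * ((k : ℝ) + 1) ≤ E * ((k : ℝ) + 1) :=
      mul_le_mul_of_nonneg_right hE1 (by positivity)
    have h5 : (1 - s0) * ((k : ℝ) + 1) = k + 1 - 1 / 4 := by
      rw [hs0d]; field_simp
    linarith
  obtain ⟨c1, c2⟩ := det P (fun p hp => (hPmem p hp).2.2.1) k hk (z ^ ((k : ℝ) + 1 / 2)) hy
    hslo hshi hQ hc hT
  refine ⟨P, ?_, ?_, c1, c2⟩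
  · intro p hp
    obtain ⟨g1, g2, g3, g4, g5⟩ := hPmem p hp
    rw [PW, mem_filter, mem_Icc]
    refine ⟨⟨g3.one_lt.le, g2.trans ?_⟩, g3, g4, g5⟩
    apply Nat.floor_le_floor
    rw [le_div_iff₀ (by norm_num)]
    linarith
  · have h3 := prod_le_primorial P N (fun p hp => ⟨(hPmem p hp).2.2.1, (hPmem p hp).2.1⟩)
    calc ((∏ p ∈ P, p : ℕ) : ℝ) ≤ ((4 ^ N : ℕ) : ℝ) := by exact_mod_cast h3
      _ = (4 : ℝ) ^ (N : ℝ) := by push_cast; rw [Real.rpow_natCast]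
      _ ≤ (4 : ℝ) ^ z :=
          Real.rpow_le_rpow_of_exponent_le (by norm_num) (Nat.floor_le hz0.le)
      _ = Real.exp (Real.log 4 * z) := by rw [Real.rpow_def_of_pos (by norm_num)]

end Pool.Agent.J4H72.MF
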