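import Mathlib
import Pool.Agent.H510R2.Maier.MA1
import Pool.Agent.H442R2.EHI.PntErr

set_option autoImplicit false

/-!
# The prime number theorem with the tent weight, with an error term (helper72)
-/

namespace Pool.Agent.J4H72.MF

open Finset Filter Topology
open Pool.Agent.H378R2
open Pool.Agent.H510R2.Maier

lemma ev_err (C : ℝ) : ∀ᶠ L : ℝ in atTop,
    3 * (12 * C * (Real.exp L / L ^ 2) + 8 * Real.exp (L / 2) + 2) ≤ Real.exp L / (80 * L) := by
  have h1 : Tendsto (fun L : ℝ => L * Real.exp (-(1 / 2) * L)) atTop (𝓝 0) := by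
    have := Real.tendsto_pow_mul_exp_neg_atTop_nhds_zero 1
    have h2 := this.comp (tendsto_id.const_mul_atTop (show (0 : ℝ) < 1 / 2 by norm_num))
    have h3 := h2.const_mul (2 : ℝ)
    rw [mul_zero] at h3
    refine h3.congr fun L => ?_
    simp only [Function.comp, id, pow_one]
    rw [show -(1 / 2) * L = -(1 / 2 * L) by ring]
    ring
  have h2 : ∀ᶠ L : ℝ in atTop, L * Real.exp (-(1 / 2) * L) < 1 / 7200 :=
    h1.eventually_lt_const (by norm_num)
  have h3 : ∀ᶠ L : ℝ in atTop, 5760 * |C| ≤ L := eventually_ge_atTop _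
  filter_upwards [h2, h3, eventually_ge_atTop (1 : ℝ)] with L g1 g2 g3
  have hL : 0 < L := by linarith
  have e1 : Real.exp (L / 2) = Real.exp L * Real.exp (-(1 / 2) * L) := by
    rw [← Real.exp_add]; congr 1; ring
  have hE : 0 < Real.exp L := Real.exp_pos L
  have h4 : 36 * C * (Real.exp L / L ^ 2) ≤ Real.exp L / (160 * L) := by
    have hC : C ≤ |C| := le_abs_self C
    rw [← mul_div_assoc, div_le_div_iff₀ (by positivity) (by positivity)]
    have h5 : 5760 * C ≤ L := by linarith
    have h6 : 36 * C * Real.exp L * (160 * L) = (5760 * C) * (Real.exp L * L) := by ring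
    rw [h6]
    have h7 : Real.exp L * L ^ 2 = L * (Real.exp L * L) := by ring
    rw [h7]
    exact mul_le_mul_of_nonneg_right h5 (by positivity)
  have h5 : 24 * Real.exp (L / 2) + 6 ≤ Real.exp L / (160 * L) := by
    have h6 : 1 ≤ Real.exp (L / 2) := Real.one_le_exp (by linarith)
    have h7 : 30 * Real.exp (L / 2) ≤ Real.exp L / (160 * L) := by
      rw [le_div_iff₀ (by positivity), e1]
      have h8 : 30 * (Real.exp L * Real.exp (-(1 / 2) * L)) * (160 * L) =
          4800 * (L * Real.exp (-(1 / 2) * L)) * Real.exp L := by ring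
      rw [h8]
      nlinarith
    linarith
  have h6 : Real.exp L / (80 * L) = Real.exp L / (160 * L) + Real.exp L / (160 * L) := by
    field_simp; ring
  rw [h6]
  have h7 : 3 * (12 * C * (Real.exp L / L ^ 2) + 8 * Real.exp (L / 2) + 2) =
      36 * C * (Real.exp L / L ^ 2) + (24 * Real.exp (L / 2) + 6) := by ring
  rw [h7]
  linarith

theorem lphi_err : ∀ᶠ X : ℝ in atTop, |LPhi X - MPhi X| ≤ X / (80 * Real.log X) := by
  obtain ⟨C, hC, N1, hN1⟩ := Pool.Agent.H442R2.EHI.PntErrAux.largeU 2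
  have hlogtop : Tendsto Real.log atTop atTop := Real.tendsto_log_atTop
  filter_upwards [hlogtop.eventually (ev_err C), eventually_ge_atTop ((N1 : ℝ) ^ 2),
    eventually_ge_atTop (16 : ℝ)] with X g1 g2 g3
  have hX0 : 0 < X := by linarith
  have hL0 : 0 < Real.log X := Real.log_pos (by linarith)
  have hsX : Real.exp (Real.log X / 2) = Real.sqrt X := by
    rw [Real.sqrt_eq_rpow, Real.rpow_def_of_pos hX0]
    congr 1; ring
  rw [hsX, Real.exp_log hX0] at g1
  set E : ℝ := 12 * C * (X / Real.log X ^ 2) + 8 * Real.sqrt X + 2 with hE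
  have hE0 : 0 ≤ E := by positivity
  have hs4 : 4 ≤ Real.sqrt X := by
    rw [show (4 : ℝ) = Real.sqrt 16 by
      rw [show (16 : ℝ) = 4 ^ 2 by norm_num, Real.sqrt_sq (by norm_num)]]
    exact Real.sqrt_le_sqrt g3
  have hall : ∀ n : ℕ, 1 ≤ n → (n : ℝ) ≤ 3 * X → |Chebyshev.psi n - n| ≤ E := by
    intro n hn hn3
    have hn0 : (1 : ℝ) ≤ n := by exact_mod_cast hn
    rcases le_total (Real.sqrt X) n with h | h
    · have hN1n : N1 ≤ n := by
        have h1 : (N1 : ℝ) ≤ Real.sqrt X := by
          rw [← Real.sqrt_sq (Nat.cast_nonneg N1)]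
          exact Real.sqrt_le_sqrt g2
        exact_mod_cast h1.trans h
      have h3 := hN1 n hN1n
      have h4 : Real.log X / 2 ≤ Real.log n := by
        have h5 : Real.log (Real.sqrt X) ≤ Real.log n := Real.log_le_log (by linarith) h
        rwa [Real.log_sqrt hX0.le] at h5
      have h5 : (n : ℝ) / Real.log n ^ 2 ≤ 3 * X / (Real.log X / 2) ^ 2 := by
        apply div_le_div₀ (by positivity) hn3 (by positivity)
        exact pow_le_pow_left₀ (by positivity) h4 2
      have h6 : 3 * X / (Real.log X / 2) ^ 2 = 12 * (X / Real.log X ^ 2) := by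
        field_simp; norm_num
      rw [h6] at h5
      have h7 := mul_le_mul_of_nonneg_left h5 hC.le
      have h8 : 0 ≤ 8 * Real.sqrt X := by positivity
      rw [hE]
      linarith
    · have h3 := Chebyshev.psi_nonneg (n : ℝ)
      have h4 : Chebyshev.psi n ≤ 7 * n := by
        have h5 := Chebyshev.psi_le_const_mul_self (x := (n : ℝ)) (by linarith)
        have h6 : Real.log 4 + 4 ≤ 7 := by
          rw [show (4 : ℝ) = 2 ^ 2 by norm_num, Real.log_pow]
          have := Real.log_two_lt_d9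
          push_cast
          linarith
        nlinarith
      have h5 : 0 ≤ 12 * C * (X / Real.log X ^ 2) := by positivity
      rw [abs_le]
      constructor <;> linarith
  set N := ⌊3 * X⌋₊ with hN
  have hNle : (N : ℝ) ≤ 3 * X := Nat.floor_le (by linarith)
  have hNlt : 3 * X < N + 1 := Nat.lt_floor_add_one _
  have hend : Phi (((N + 1 : ℕ) : ℝ) / X) = 0 := by
    apply Phi_eq_zero_of_ge
    rw [le_div_iff₀ hX0]
    push_cast
    have := exp_one_lt_three'
    nlinarith
  have e1 : LPhi X = ∑ n ∈ Icc 1 N, (Phi ((n : ℕ) / X) - Phi (((n + 1 : ℕ) : ℝ) / X)) * Chebyshev.psi n := by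
    unfold LPhi
    rw [abel N (fun n => Phi ((n : ℕ) / X)) (fun n => ArithmeticFunction.vonMangoldt n), hend, zero_mul, add_zero]
    apply Finset.sum_congr rfl
    intro n _
    rw [psi_nat]
  have e2 : MPhi X = ∑ n ∈ Icc 1 N, (Phi ((n : ℕ) / X) - Phi (((n + 1 : ℕ) : ℝ) / X)) * (n : ℝ) := by
    unfold MPhi
    have := abel N (fun n => Phi ((n : ℕ) / X)) (fun _ => (1 : ℝ))
    simp only [mul_one] at this
    rw [this, hend, zero_mul, add_zero]
    apply Finset.sum_congr rfl
    intro n _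
    simp
  rw [e1, e2, ← Finset.sum_sub_distrib]
  calc |∑ n ∈ Icc 1 N, ((Phi ((n : ℕ) / X) - Phi (((n + 1 : ℕ) : ℝ) / X)) * Chebyshev.psi n -
        (Phi ((n : ℕ) / X) - Phi (((n + 1 : ℕ) : ℝ) / X)) * (n : ℝ))|
      ≤ ∑ n ∈ Icc 1 N, |(Phi ((n : ℕ) / X) - Phi (((n + 1 : ℕ) : ℝ) / X)) * Chebyshev.psi n -
        (Phi ((n : ℕ) / X) - Phi (((n + 1 : ℕ) : ℝ) / X)) * (n : ℝ)| := Finset.abs_sum_le_sum_abs _ _
    _ ≤ ∑ n ∈ Icc 1 N, (1 / X) * E := by
        apply Finset.sum_le_sum
        intro n hn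
        rw [Finset.mem_Icc] at hn
        rw [← mul_sub, abs_mul]
        have h3 : |Phi ((n : ℕ) / X) - Phi (((n + 1 : ℕ) : ℝ) / X)| ≤ 1 / X := by
          have h4 := Phi_lip (u := (n : ℝ) / X) (v := ((n + 1 : ℕ) : ℝ) / X) (by positivity) (by positivity)
          refine h4.trans ?_
          rw [← sub_div, abs_div, abs_of_pos hX0]
          push_cast
          rw [show (n : ℝ) - (n + 1) = -1 by ring, abs_neg, abs_one]
        have hn' : (n : ℝ) ≤ N := by exact_mod_cast hn.2
        have h5 := hall n hn.1 (hn'.trans hNle)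
        exact mul_le_mul h3 h5 (abs_nonneg _) (by positivity)
    _ = N * ((1 / X) * E) := by
        rw [Finset.sum_const, Nat.card_Icc, nsmul_eq_mul]; simp
    _ ≤ (3 * X) * ((1 / X) * E) := by
        apply mul_le_mul_of_nonneg_right hNle (by positivity)
    _ = 3 * E := by field_simp
    _ ≤ X / (80 * Real.log X) := g1

end Pool.Agent.J4H72.MF
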