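import Mathlib
import Pool.Agent.J4H72.MF.Rows
import Pool.Agent.J4H72.MF.Choice
import Pool.Agent.N610.MS.MAIN

set_option autoImplicit false

/-!
# The frequency of Maier's irregularities: counting (helper72)
-/

namespace Pool.Agent.J4H72.MF

open Finset Filter Topology
open Pool.Agent.N610.MS
open Pool.Agent.H378R2 (WW PW GoodS yy)

/-- from the mean to the count -/
lemma count_of_mean (I : Finset ℕ) (w f : ℕ → ℝ) (p : ℕ → Prop) [DecidablePred p] (B D δ : ℝ)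
    (hw : ∀ n ∈ I, 0 ≤ w n ∧ w n ≤ B) (hp : ∀ n ∈ I, w n ≠ 0 → p n)
    (hf : ∀ n ∈ I, p n → f n ≤ D) (hδ : 0 < δ) (hsum : ∑ n ∈ I, w n = 1)
    (hmean : 3 / 2 * δ ≤ ∑ n ∈ I, w n * f n) :
    δ / 2 ≤ B * D * ((I.filter (fun n => p n ∧ δ ≤ f n)).card : ℝ) := by
  classical
  set G := I.filter (fun n => p n ∧ δ ≤ f n) with hG
  have h1 : ∑ n ∈ I, w n * f n ≤ ∑ n ∈ I, ((if n ∈ G then B * D else 0) + δ * w n) := by
    apply sum_le_sum
    intro n hn
    obtain ⟨h2, h3⟩ := hw n hn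
    by_cases hnG : n ∈ G
    · rw [if_pos hnG]
      rw [hG, mem_filter] at hnG
      have h4 := hf n hn hnG.2.1
      have h5 : 0 ≤ f n := hδ.le.trans hnG.2.2
      have h6 : w n * f n ≤ B * D := mul_le_mul h3 h4 h5 (h2.trans h3)
      have h7 : 0 ≤ δ * w n := by positivity
      linarith
    · rw [if_neg hnG, zero_add]
      by_cases hwn : w n = 0
      · rw [hwn]; simp
      · have h4 := hp n hn hwn
        have h5 : f n < δ := by
          by_contra h
          exact hnG (by rw [hG, mem_filter]; exact ⟨hn, h4, not_lt.1 h⟩)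
        nlinarith
  rw [sum_add_distrib, ← mul_sum, hsum, mul_one] at h1
  have h2 : ∑ n ∈ I, (if n ∈ G then B * D else 0) = B * D * (G.card : ℝ) := by
    rw [← sum_filter, sum_const, nsmul_eq_mul, mul_comm]
    congr 2
    have : I.filter (fun n => n ∈ G) = G := by
      ext n
      rw [mem_filter]
      constructor
      · exact fun h => h.2
      · exact fun h => ⟨(mem_filter.1 h).1, h⟩
    rw [this]
  rw [h2] at h1
  linarith

lemma R_nonneg {n : ℕ} (hn : 1 ≤ n) {y : ℝ} (hy : 0 < y) : 0 ≤ R n y := by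
  unfold R
  have h1 : Nat.primeCounting ⌊(n : ℝ)⌋₊ ≤ Nat.primeCounting ⌊(n : ℝ) + y⌋₊ := by
    apply Nat.monotone_primeCounting
    apply Nat.floor_le_floor
    linarith
  have h2 : (Nat.primeCounting ⌊(n : ℝ)⌋₊ : ℝ) ≤ Nat.primeCounting ⌊(n : ℝ) + y⌋₊ := by exact_mod_cast h1
  have h3 : 0 ≤ Real.log (n : ℝ) := Real.log_natCast_nonneg n
  apply div_nonneg (by linarith) (by positivity)

lemma R_le {n : ℕ} (hn : 1 ≤ n) {y : ℝ} (hy : 0 < y) : R n y ≤ Real.log n := by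
  have e1 : ⌊(n : ℝ) + y⌋₊ = n + ⌊y⌋₊ := by
    rw [add_comm, Nat.floor_add_natCast hy.le, add_comm]
  have e2 : ⌊(n : ℝ)⌋₊ = n := Nat.floor_natCast n
  have h0 : 0 ≤ Real.log (n : ℝ) := Real.log_natCast_nonneg n
  unfold R
  rw [e1, e2, MAIN.cnt_eq, div_div_eq_mul_div, div_le_iff₀ hy]
  have h1 : (((Ioc n (n + ⌊y⌋₊)).filter Nat.Prime).card : ℝ) ≤ y := by
    have h2 : ((Ioc n (n + ⌊y⌋₊)).filter Nat.Prime).card ≤ ⌊y⌋₊ := by
      refine (card_filter_le _ _).trans ?_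
      rw [Nat.card_Ioc]
      omega
    have h3 : (((Ioc n (n + ⌊y⌋₊)).filter Nat.Prime).card : ℝ) ≤ (⌊y⌋₊ : ℝ) := by exact_mod_cast h2
    exact h3.trans (Nat.floor_le hy.le)
  nlinarith

lemma ncard_filter (X : ℝ) (q : ℕ → Prop) [DecidablePred q] (hX : 0 < X) :
    {n : ℕ | X < (n : ℝ) ∧ (n : ℝ) < 3 * X ∧ q n}.ncard =
      ((Icc 1 ⌊3 * X⌋₊).filter (fun n : ℕ => (X < (n : ℝ) ∧ (n : ℝ) < 3 * X) ∧ q n)).card := by
  rw [← Set.ncard_coe_finset]
  congr 1
  ext n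
  simp only [Set.mem_setOf_eq, coe_filter, mem_Icc]
  constructor
  · rintro ⟨h1, h2, h3⟩
    have h4 : (0 : ℝ) < n := hX.trans h1
    exact ⟨⟨by exact_mod_cast h4, Nat.le_floor h2.le⟩, ⟨h1, h2⟩, h3⟩
  · rintro ⟨_, ⟨h1, h2⟩, h3⟩
    exact ⟨h1, h2, h3⟩

set_option maxHeartbeats 1000000 in
theorem master : ∃ C0 : ℕ, 10 ≤ C0 ∧ ∀ᶠ X : ℝ in atTop, ∀ (k : ℕ) (z : ℝ), 1 ≤ k →
    ((C0 * k : ℕ) : ℝ) ^ (C0 * k) ≤ z → 1000 * z ≤ Real.log X →
      Real.log X ≤ z ^ ((k : ℝ) + 1 / 2) →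
        X * Real.exp (-(3 * z)) ≤ ({n : ℕ | X < n ∧ (n : ℝ) < 3 * X ∧
          dl k ≤ (-1) ^ k * (R n (z ^ ((k : ℝ) + 1 / 2)) - 1)}.ncard : ℝ) := by
  obtain ⟨C0, hC0, hch⟩ := choice
  refine ⟨C0, hC0, ?_⟩
  have hlogtop : Tendsto Real.log atTop atTop := Real.tendsto_log_atTop
  have ev1 : ∀ᶠ X : ℝ in atTop, Real.log (Real.log X) ^ 2 ≤ 9 / 10 * Real.log X := by
    have h1 := (Real.isLittleO_pow_log_id_atTop (n := 2)).bound (show (0 : ℝ) < 9 / 10 by norm_num)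
    filter_upwards [hlogtop.eventually h1, hlogtop.eventually_ge_atTop 1] with X h2 h3
    rw [Real.norm_of_nonneg (by positivity), id, Real.norm_of_nonneg (by linarith)] at h2
    exact h2
  have ev2 : ∀ᶠ X : ℝ in atTop, X ^ (-(1 / 10) : ℝ) ≤ 1 / Real.log X := by
    have h1 := (isLittleO_log_rpow_atTop (show (0 : ℝ) < 1 / 10 by norm_num)).bound
      (show (0 : ℝ) < 1 by norm_num)
    filter_upwards [h1, eventually_gt_atTop (1 : ℝ)] with X h2 h3
    have hl : 0 < Real.log X := Real.log_pos h3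
    have hX0 : 0 < X := by linarith
    rw [Real.norm_of_nonneg hl.le, Real.norm_of_nonneg (Real.rpow_nonneg hX0.le _), one_mul] at h2
    rw [Real.rpow_neg hX0.le, ← one_div]
    exact one_div_le_one_div_of_le hl h2
  filter_upwards [rows_err 1, ev1, ev2, eventually_ge_atTop (Real.exp 10)] with X hrows g1 g2 g3
  intro k z hk hz hzX hzL
  obtain ⟨ps, S, hS, hrow⟩ := hrows
  obtain ⟨P, hPsub, hPW, hPB, hdev⟩ := hch k z X hk hz hzX S ps hS
  obtain ⟨w, ρ, hρ, hw, hwn, hws, hwm⟩ := hrow P hPsub hPB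
  obtain ⟨m1, m2⟩ := growth C0 k z hC0 hk hz
  have hkR : (1 : ℝ) ≤ k := by exact_mod_cast hk
  have hC0R : (10 : ℝ) ≤ C0 := by exact_mod_cast hC0
  have hX0 : 0 < X := lt_of_lt_of_le (Real.exp_pos _) g3
  have hX1 : 1 ≤ X := by
    have := Real.add_one_le_exp (10 : ℝ)
    linarith
  set L := Real.log X with hL
  have hL10 : 10 ≤ L := by
    rw [hL, Real.le_log_iff_exp_le hX0]; exact g3
  have hL0 : 0 < L := by linarith
  set Λ := Real.log z with hΛ
  have hΛ10 : 10 ≤ Λ := by nlinarith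
  have hz0 : 0 < z := by
    have : (0 : ℝ) < ((C0 * k : ℕ) : ℝ) ^ (C0 * k) := by
      apply pow_pos
      push_cast
      positivity
    linarith
  have hz1 : 1 < z := (Real.log_pos_iff hz0.le).1 (by rw [← hΛ]; linarith)
  have hexpΛ : Real.exp Λ = z := Real.exp_log hz0
  set y := z ^ ((k : ℝ) + 1 / 2) with hy
  have hy0 : 0 < y := Real.rpow_pos_of_pos hz0 _
  have hyexp : y ≤ Real.exp (Λ ^ 2) := by
    rw [hy, Real.rpow_def_of_pos hz0, ← hΛ]
    apply Real.exp_le_exp.2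
    have h1 : (k : ℝ) + 1 / 2 ≤ Λ := by nlinarith
    nlinarith
  have hΛL : Λ ≤ Real.log L := by
    rw [hΛ]
    apply Real.log_le_log hz0
    linarith
  have hyX : y ≤ X ^ (9 / 10 : ℝ) := by
    refine hyexp.trans ?_
    rw [Real.rpow_def_of_pos hX0, ← hL]
    apply Real.exp_le_exp.2
    have h1 : Λ ^ 2 ≤ Real.log L ^ 2 := pow_le_pow_left₀ (by linarith) hΛL 2
    linarith
  have hdl0 := dl_pos k
  set δ := dl k with hδ
  -- the mean
  have hkey := MAIN.key (X := X) (L := L) (ρ := ρ) (ε' := 1 / L) (P := P) (w := w)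
    (y := y) hX1 hL0 rfl hPB hρ (fun n => (hw n).1) (fun n hn => (hwn n hn).1) hws hy0 hyX (by
      have h5 : ((⌊y⌋₊ : ℕ) : ℝ) ≤ X ^ (9 / 10 : ℝ) := (Nat.floor_le hy0.le).trans hyX
      have h6 := hwm ⌊y⌋₊ h5
      rwa [pow_one] at h6)
  have hsmall : 4 / L ≤ δ / 2 := by
    have h1 : z ^ (1 / 2 : ℝ) ≤ L / 2 := by
      have h2 : z ^ (1 / 2 : ℝ) ≤ z ^ (1 : ℝ) :=
        Real.rpow_le_rpow_of_exponent_le hz1.le (by norm_num)
      rw [Real.rpow_one] at h2
      linarith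
    rw [div_le_div_iff₀ hL0 (by norm_num)]
    have h2 : δ * z ^ (1 / 2 : ℝ) ≤ δ * (L / 2) := mul_le_mul_of_nonneg_left h1 hdl0.le
    -- improve: z^(1/2) ≤ L / 1000
    have h3 : z ^ (1 / 2 : ℝ) ≤ L / 1000 := by
      have h2 : z ^ (1 / 2 : ℝ) ≤ z ^ (1 : ℝ) :=
        Real.rpow_le_rpow_of_exponent_le hz1.le (by norm_num)
      rw [Real.rpow_one] at h2
      linarith
    have h4 : δ * z ^ (1 / 2 : ℝ) ≤ δ * (L / 1000) := mul_le_mul_of_nonneg_left h3 hdl0.le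
    nlinarith
  have hsplit : 2 * (1 / L) + 1 / L + X ^ (-(1 / 10) : ℝ) ≤ 4 / L := by
    have e1 : 2 * (1 / L) + 1 / L + 1 / L = 4 / L := by ring
    linarith
  have hσabs : |(-1 : ℝ) ^ k| = 1 := by
    rw [abs_pow, abs_neg, abs_one, one_pow]
  have hmean : 3 / 2 * δ ≤ ∑ n ∈ Icc 1 ⌊3 * X⌋₊, w n * ((-1) ^ k * (R n y - 1)) := by
    have e1 : ∑ n ∈ Icc 1 ⌊3 * X⌋₊, w n * ((-1) ^ k * (R n y - 1)) =
        (-1) ^ k * (∑ n ∈ Icc 1 ⌊3 * X⌋₊, w n * R n y - rel P y) + (-1) ^ k * (rel P y - 1) := by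
      have e2 : ∑ n ∈ Icc 1 ⌊3 * X⌋₊, w n * ((-1) ^ k * (R n y - 1)) =
          (-1) ^ k * (∑ n ∈ Icc 1 ⌊3 * X⌋₊, w n * R n y - ∑ n ∈ Icc 1 ⌊3 * X⌋₊, w n) := by
        rw [← sum_sub_distrib, mul_sum]
        exact sum_congr rfl fun n _ => by ring
      rw [e2, hws]
      ring
    rw [e1]
    have h3 : |(-1) ^ k * (∑ n ∈ Icc 1 ⌊3 * X⌋₊, w n * R n y - rel P y)| ≤ δ / 2 := by
      rw [abs_mul, hσabs, one_mul]
      linarith
    have h4 := (abs_le.1 h3).1
    linarith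
  -- the count
  set W : ℝ := ((∏ p ∈ P, p : ℕ) : ℝ) with hW
  have hW0 : 0 < W := by
    rw [hW]
    have : 0 < ∏ p ∈ P, p := by
      refine Finset.prod_pos fun p hp => ?_
      have h3 := hPsub hp
      rw [Pool.Agent.H378R2.PW, Finset.mem_filter] at h3
      exact h3.2.1.pos
    exact_mod_cast this
  have hcount := count_of_mean (Icc 1 ⌊3 * X⌋₊) w (fun n => (-1) ^ k * (R n y - 1))
    (fun n : ℕ => X < (n : ℝ) ∧ (n : ℝ) < 3 * X) (20 * W / X) (2 * L) δ (fun n _ => hw n)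
    (fun n _ hwn' => ⟨(hwn n hwn').1, (hwn n hwn').2.1⟩) (by
      intro n hn hpn
      rw [mem_Icc] at hn
      have h1 := R_nonneg hn.1 hy0
      have h2 := R_le hn.1 hy0
      have h3 : Real.log n ≤ 2 * L := by
        have hn0 : (0 : ℝ) < n := by exact_mod_cast hn.1
        have h4 : Real.log n ≤ Real.log (3 * X) := Real.log_le_log hn0 hpn.2.le
        rw [Real.log_mul (by norm_num) hX0.ne'] at h4
        have h5 : Real.log 3 ≤ 2 := by
          have := Real.log_le_sub_one_of_pos (show (0 : ℝ) < 3 by norm_num)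
          linarith
        linarith
      show (-1) ^ k * (R n y - 1) ≤ 2 * L
      have h4 : (-1 : ℝ) ^ k * (R n y - 1) ≤ |R n y - 1| := by
        have := le_abs_self ((-1 : ℝ) ^ k * (R n y - 1))
        rwa [abs_mul, hσabs, one_mul] at this
      refine h4.trans ?_
      rw [abs_le]
      constructor <;> linarith) hdl0 hws hmean
  have hcard := ncard_filter X (fun n => δ ≤ (-1) ^ k * (R n y - 1)) hX0
  rw [hcard]
  set G := ((Icc 1 ⌊3 * X⌋₊).filter (fun n : ℕ => (X < (n : ℝ) ∧ (n : ℝ) < 3 * X) ∧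
    δ ≤ (-1) ^ k * (R n y - 1))).card with hG
  -- the numbers
  have hcub : Λ ^ 2 ≤ 6 / 10 * z := by
    have h1 := Real.pow_div_factorial_le_exp Λ (by linarith) 3
    rw [hexpΛ] at h1
    have e1 : ((3).factorial : ℝ) = 6 := by norm_num [Nat.factorial]
    rw [e1, div_le_iff₀ (by norm_num)] at h1
    nlinarith
  have hLexp : L ≤ Real.exp (6 / 10 * z) := by
    refine (hzL.trans hyexp).trans ?_
    exact Real.exp_le_exp.2 hcub
  have hlog4 : Real.log 4 ≤ 14 / 10 := by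
    rw [show (4 : ℝ) = 2 ^ 2 by norm_num, Real.log_pow]
    have := Real.log_two_lt_d9
    push_cast; linarith
  have hWexp : W ≤ Real.exp (14 / 10 * z) := by
    refine hPW.trans (Real.exp_le_exp.2 ?_)
    exact mul_le_mul_of_nonneg_right hlog4 hz0.le
  have hδexp : 80 ≤ δ * Real.exp z := by
    have h1 : z ^ (1 / 2 : ℝ) = Real.exp (Λ / 2) := by
      rw [Real.rpow_def_of_pos hz0, ← hΛ]
      congr 1; ring
    have h2 : 4 ≤ δ * z ^ (1 / 2 : ℝ) := by linarith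
    have h3 : 20 * Real.exp (Λ / 2) ≤ Real.exp z := by
      have h4 : (20 : ℝ) ≤ Real.exp 3 := by
        have h5 : (2.7182818283 : ℝ) < Real.exp 1 := Real.exp_one_gt_d9
        have h6 : Real.exp 3 = Real.exp 1 ^ 3 := by
          rw [← Real.exp_nat_mul]; norm_num
        rw [h6]
        calc (20 : ℝ) ≤ 2.7182818283 ^ 3 := by norm_num
          _ ≤ Real.exp 1 ^ 3 := pow_le_pow_left₀ (by norm_num) h5.le 3
      calc 20 * Real.exp (Λ / 2) ≤ Real.exp 3 * Real.exp (Λ / 2) :=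
            mul_le_mul_of_nonneg_right h4 (Real.exp_pos _).le
        _ = Real.exp (3 + Λ / 2) := by rw [Real.exp_add]
        _ ≤ Real.exp z := by
            apply Real.exp_le_exp.2
            nlinarith
    rw [h1] at h2
    have h4 : δ * (20 * Real.exp (Λ / 2)) ≤ δ * Real.exp z := mul_le_mul_of_nonneg_left h3 hdl0.le
    nlinarith
  have hfin : 80 * W * L ≤ δ * Real.exp (3 * z) := by
    have h1 : Real.exp (3 * z) = Real.exp (14 / 10 * z) * Real.exp (6 / 10 * z) * Real.exp z := by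
      rw [← Real.exp_add, ← Real.exp_add]
      congr 1; ring
    rw [h1]
    have h2 : W * L ≤ Real.exp (14 / 10 * z) * Real.exp (6 / 10 * z) :=
      mul_le_mul hWexp hLexp hL0.le (Real.exp_pos _).le
    calc 80 * W * L = 80 * (W * L) := by ring
      _ ≤ (δ * Real.exp z) * (Real.exp (14 / 10 * z) * Real.exp (6 / 10 * z)) :=
          mul_le_mul hδexp h2 (by positivity) (by positivity)
      _ = _ := by ring
  -- conclusion
  have h1 : δ * X ≤ 80 * W * L * G := by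
    have h2 : 20 * W / X * (2 * L) * (G : ℝ) = 40 * W * L * G / X := by ring
    rw [h2] at hcount
    rw [le_div_iff₀ hX0] at hcount
    linarith
  have h2 : 80 * W * L * G ≤ δ * Real.exp (3 * z) * G :=
    mul_le_mul_of_nonneg_right hfin (Nat.cast_nonneg _)
  have h3 : δ * X ≤ δ * (Real.exp (3 * z) * G) := by linarith
  have h4 : X ≤ Real.exp (3 * z) * G := le_of_mul_le_mul_left h3 hdl0
  rw [Real.exp_neg, ← div_eq_mul_inv, div_le_iff₀ (Real.exp_pos _)]
  linarith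

end Pool.Agent.J4H72.MF
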