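import Mathlib
import Pool.Agent.J4H72.MF.Master

set_option autoImplicit false

/-!
# The frequency of Maier's irregularities: uniform version, both signs (helper72)
-/

namespace Pool.Agent.J4H72.MF

open Finset Filter Topology
open Pool.Agent.N610.MS (R)

/-- the interval does not depend on the parametrization -/
lemma rpow_self {h r : ℝ} (hh : 0 < h) (hr : 0 < r) : (h ^ (1 / r)) ^ r = h := by
  rw [← Real.rpow_mul hh.le, one_div_mul_cancel hr.ne', Real.rpow_one]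

/-- parameters: from the real `u` to the integer `k` -/
lemma params (C0 : ℕ) (hC0 : 10 ≤ C0) (u h : ℝ) (hu : 1 ≤ u) (hh : 1 ≤ h)
    (hZ : (11 * C0 * u) ^ (11 * C0 * u) ≤ h ^ (1 / u)) (k : ℕ) (hk1 : u ≤ k) (hk2 : (k : ℝ) ≤ u + 2) :
    1 ≤ k ∧ ((C0 * k : ℕ) : ℝ) ^ (C0 * k) ≤ h ^ (1 / ((k : ℝ) + 1 / 2)) ∧
      h ^ (1 / ((k : ℝ) + 1 / 2)) ≤ h ^ (1 / u) ∧ (11 * C0 * u) ^ (-(11 * C0 * u)) ≤ dl k := by
  have hC0R : (10 : ℝ) ≤ C0 := by exact_mod_cast hC0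
  have hkR : (1 : ℝ) ≤ k := hu.trans hk1
  have hk : 1 ≤ k := by exact_mod_cast hkR
  have hk0 : (0 : ℝ) < (k : ℝ) + 1 / 2 := by linarith
  have hh0 : 0 < h := by linarith
  have hu0 : 0 < u := by linarith
  have h11 : 1 ≤ 11 * (C0 : ℝ) * u := by nlinarith
  refine ⟨hk, ?_, ?_, ?_⟩
  · -- z ≥ Z^(2/7)
    have h1 : h ^ (1 / u * (2 / 7)) ≤ h ^ (1 / ((k : ℝ) + 1 / 2)) := by
      apply Real.rpow_le_rpow_of_exponent_le hh
      rw [div_mul_div_comm, div_le_div_iff₀ (by positivity) hk0]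
      linarith
    refine le_trans ?_ h1
    rw [Real.rpow_mul hh0.le]
    have h2 : ((11 * C0 * u) ^ (11 * C0 * u)) ^ (2 / 7 : ℝ) ≤ (h ^ (1 / u)) ^ (2 / 7 : ℝ) :=
      Real.rpow_le_rpow (by positivity) hZ (by norm_num)
    refine le_trans ?_ h2
    rw [← Real.rpow_mul (by positivity), ← Real.rpow_natCast]
    have h3 : ((C0 * k : ℕ) : ℝ) ≤ 11 * C0 * u := by
      push_cast
      nlinarith
    have h4 : ((C0 * k : ℕ) : ℝ) ≤ 11 * C0 * u * (2 / 7) := by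
      push_cast
      nlinarith
    calc ((C0 * k : ℕ) : ℝ) ^ ((C0 * k : ℕ) : ℝ) ≤ (11 * C0 * u) ^ ((C0 * k : ℕ) : ℝ) :=
          Real.rpow_le_rpow (by positivity) h3 (by positivity)
      _ ≤ (11 * C0 * u) ^ (11 * C0 * u * (2 / 7)) := Real.rpow_le_rpow_of_exponent_le h11 h4
  · apply Real.rpow_le_rpow_of_exponent_le hh
    apply one_div_le_one_div_of_le hu0
    linarith
  · unfold dl
    rw [Real.rpow_neg (by positivity), one_div]
    apply inv_anti₀ (by positivity)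
    rw [← Real.rpow_natCast]
    have h3 : 4 * ((k : ℝ) + 1) ≤ 11 * C0 * u := by nlinarith
    have h4 : ((2 * (k + 1) : ℕ) : ℝ) ≤ 11 * C0 * u := by
      push_cast
      nlinarith
    calc (4 * ((k : ℝ) + 1)) ^ ((2 * (k + 1) : ℕ) : ℝ) ≤ (11 * C0 * u) ^ ((2 * (k + 1) : ℕ) : ℝ) :=
          Real.rpow_le_rpow (by positivity) h3 (by positivity)
      _ ≤ (11 * C0 * u) ^ (11 * C0 * u) := Real.rpow_le_rpow_of_exponent_le h11 h4

theorem unif : ∃ C : ℝ, 1 ≤ C ∧ ∀ᶠ X : ℝ in atTop, ∀ u h σ : ℝ, 1 ≤ u → Real.log X ≤ h →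
    (C * u) ^ (C * u) ≤ h ^ (1 / u) → 1000 * h ^ (1 / u) ≤ Real.log X → (σ = 1 ∨ σ = -1) →
      X * Real.exp (-(3 * h ^ (1 / u))) ≤ ({n : ℕ | X < n ∧ (n : ℝ) < 3 * X ∧
        (C * u) ^ (-(C * u)) ≤ σ * (R n h - 1)}.ncard : ℝ) := by
  obtain ⟨C0, hC0, hm⟩ := master
  have hC0R : (10 : ℝ) ≤ C0 := by exact_mod_cast hC0
  refine ⟨11 * C0, by linarith, ?_⟩
  filter_upwards [hm, eventually_ge_atTop (Real.exp 1)] with X hX hXe
  intro u h σ hu hh hZ hZX hσ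
  have hX0 : 0 < X := lt_of_lt_of_le (Real.exp_pos _) hXe
  have hL1 : 1 ≤ Real.log X := by
    rw [Real.le_log_iff_exp_le hX0]; exact hXe
  have hh1 : 1 ≤ h := hL1.trans hh
  have hh0 : 0 < h := by linarith
  -- the degree
  obtain ⟨k, hk1, hk2, hkσ⟩ : ∃ k : ℕ, u ≤ k ∧ (k : ℝ) ≤ u + 2 ∧ σ = (-1) ^ k := by
    have h1 := Nat.le_ceil u
    have h2 := Nat.ceil_lt_add_one (show 0 ≤ u by linarith)
    rcases Nat.even_or_odd ⌈u⌉₊ with he | ho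
    · rcases hσ with h' | h'
      · exact ⟨⌈u⌉₊, h1, by linarith, by rw [h', he.neg_one_pow]⟩
      · exact ⟨⌈u⌉₊ + 1, by push_cast; linarith, by push_cast; linarith,
          by rw [h', he.add_one.neg_one_pow]⟩
    · rcases hσ with h' | h'
      · exact ⟨⌈u⌉₊ + 1, by push_cast; linarith, by push_cast; linarith,
          by rw [h', ho.add_one.neg_one_pow]⟩
      · exact ⟨⌈u⌉₊, h1, by linarith, by rw [h', ho.neg_one_pow]⟩
  obtain ⟨p1, p2, p3, p4⟩ := params C0 hC0 u h hu hh1 hZ k hk1 hk2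
  have hk0 : (0 : ℝ) < (k : ℝ) + 1 / 2 := by positivity
  have hres := hX k (h ^ (1 / ((k : ℝ) + 1 / 2))) p1 p2 (by linarith) (by
    rw [rpow_self hh0 hk0]; exact hh)
  rw [rpow_self hh0 hk0] at hres
  have e1 : X * Real.exp (-(3 * h ^ (1 / u))) ≤ X * Real.exp (-(3 * h ^ (1 / ((k : ℝ) + 1 / 2)))) := by
    apply mul_le_mul_of_nonneg_left _ hX0.le
    apply Real.exp_le_exp.2
    linarith
  refine e1.trans (hres.trans ?_)
  have hfin : {n : ℕ | X < n ∧ (n : ℝ) < 3 * X ∧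
        (11 * C0 * u) ^ (-(11 * C0 * u)) ≤ σ * (R n h - 1)}.Finite := by
    apply (Set.finite_Iic ⌊3 * X⌋₊).subset
    rintro n ⟨_, h2, _⟩
    exact Nat.le_floor h2.le
  have hsub : {n : ℕ | X < n ∧ (n : ℝ) < 3 * X ∧ dl k ≤ (-1) ^ k * (R n h - 1)} ⊆
      {n : ℕ | X < n ∧ (n : ℝ) < 3 * X ∧ (11 * C0 * u) ^ (-(11 * C0 * u)) ≤ σ * (R n h - 1)} := by
    rintro n ⟨h1, h2, h3⟩
    refine ⟨h1, h2, ?_⟩
    rw [hkσ]
    exact p4.trans h3
  exact_mod_cast Set.ncard_le_ncard hsub hfin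

end Pool.Agent.J4H72.MF
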