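import Mathlib
import Pool.Agent.J4H72.MF.Unif

set_option autoImplicit false

/-!
# The frequency of Maier's irregularities: the lengths `(log n)^a` (helper72)
-/

namespace Pool.Agent.J4H72.MF

open Finset Filter Topology
open Pool.Agent.N610.MS (R)

lemma R_mono {n : ℕ} (hn : 1 ≤ n) {y y' : ℝ} (hy : 0 < y) (hyy : y ≤ y') :
    R n y * y ≤ R n y' * y' := by
  have hy' : 0 < y' := by linarith
  rcases Nat.eq_or_lt_of_le hn with h1 | h1
  · subst h1
    unfold R
    simp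
  · have hl : 0 < Real.log (n : ℝ) := Real.log_pos (by exact_mod_cast h1)
    have e : ∀ t : ℝ, 0 < t → R n t * t =
        ((Nat.primeCounting ⌊(n : ℝ) + t⌋₊ : ℝ) - Nat.primeCounting ⌊(n : ℝ)⌋₊) * Real.log n := by
      intro t ht
      unfold R
      field_simp
    rw [e y hy, e y' hy']
    apply mul_le_mul_of_nonneg_right _ hl.le
    have h2 : Nat.primeCounting ⌊(n : ℝ) + y⌋₊ ≤ Nat.primeCounting ⌊(n : ℝ) + y'⌋₊ := by
      apply Nat.monotone_primeCounting
      apply Nat.floor_le_floor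
      linarith
    have h3 : (Nat.primeCounting ⌊(n : ℝ) + y⌋₊ : ℝ) ≤ Nat.primeCounting ⌊(n : ℝ) + y'⌋₊ := by
      exact_mod_cast h2
    linarith

lemma two_pow (x : ℝ) (hx : 1 ≤ x) : (2 * x) ^ (-(2 * x)) ≤ x ^ (-x) / 2 := by
  have hx0 : 0 < x := by linarith
  rw [Real.rpow_neg (by positivity), Real.rpow_neg (by positivity), ← one_div, ← one_div,
    div_div]
  apply one_div_le_one_div_of_le (by positivity)
  have h1 : (2 * x) ^ (2 * x) = (2 * x) ^ x * (2 * x) ^ x := by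
    rw [← Real.rpow_add (by positivity)]
    congr 1; ring
  rw [h1]
  have h2 : x ^ x ≤ (2 * x) ^ x := Real.rpow_le_rpow hx0.le (by linarith) hx0.le
  have h3 : 2 ≤ (2 * x) ^ x := by
    calc (2 : ℝ) ≤ 2 * x := by linarith
      _ = (2 * x) ^ (1 : ℝ) := (Real.rpow_one _).symm
      _ ≤ (2 * x) ^ x := Real.rpow_le_rpow_of_exponent_le (by linarith) hx
  exact mul_le_mul h2 h3 (by norm_num) (by positivity)

lemma log3 : Tendsto (fun X : ℝ => Real.log (3 * X) / Real.log X) atTop (𝓝 1) := by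
  have h1 : Tendsto (fun X : ℝ => Real.log 3 / Real.log X + 1) atTop (𝓝 (0 + 1)) :=
    (Real.tendsto_log_atTop.const_div_atTop (Real.log 3)).add_const 1
  rw [zero_add] at h1
  refine h1.congr' ?_
  filter_upwards [eventually_gt_atTop (1 : ℝ)] with X hX
  have hl : 0 < Real.log X := Real.log_pos hX
  rw [Real.log_mul (by norm_num) (by linarith)]
  field_simp

set_option maxHeartbeats 2000000 in
theorem cor : ∃ C : ℝ, 1 ≤ C ∧ ∀ a ε : ℝ, 1 < a → 0 < ε → ε ≤ 1 → ∀ᶠ X : ℝ in atTop,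
    ∀ σ : ℝ, (σ = 1 ∨ σ = -1) →
      X * Real.exp (-(Real.log X ^ ε)) ≤ ({n : ℕ | X < n ∧ (n : ℝ) < 3 * X ∧
        (C * (a / ε)) ^ (-(C * (a / ε))) ≤ σ * (R n (Real.log n ^ a) - 1)}.ncard : ℝ) := by
  obtain ⟨C, hC, hun⟩ := unif
  refine ⟨4 * C, by linarith, ?_⟩
  intro a ε ha hε hε1
  obtain ⟨u, hu⟩ : ∃ u : ℝ, u = 2 * (a / ε) := ⟨_, rfl⟩
  have haε : 1 ≤ a / ε := by
    rw [le_div_iff₀ hε]; linarith
  have hu1 : 1 ≤ u := by rw [hu]; linarith
  have ha0 : 0 < a := by linarith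
  have hu0 : 0 < u := by linarith
  have hau : a * (1 / u) = ε / 2 := by rw [hu]; field_simp
  set δ : ℝ := (C * u) ^ (-(C * u)) with hδ
  have hCu : 1 ≤ C * u := by nlinarith
  have hδ0 : 0 < δ := by positivity
  have hδ1 : δ ≤ 1 := by
    rw [hδ]
    apply Real.rpow_le_one_of_one_le_of_nonpos hCu
    linarith
  have hδ' : (4 * C * (a / ε)) ^ (-(4 * C * (a / ε))) ≤ δ / 2 := by
    have h1 := two_pow (C * u) hCu
    have h2 : 4 * C * (a / ε) = 2 * (C * u) := by rw [hu]; ring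
    rw [h2]; exact h1
  have hlogtop : Tendsto Real.log atTop atTop := Real.tendsto_log_atTop
  have hlog3top : Tendsto (fun X : ℝ => Real.log (3 * X)) atTop atTop :=
    hlogtop.comp (tendsto_id.const_mul_atTop (by norm_num))
  -- eventual facts
  have ev1 : ∀ᶠ X : ℝ in atTop, (C * u) ^ (C * u) ≤ Real.log X ^ (ε / 2) :=
    ((tendsto_rpow_atTop (by positivity)).comp hlogtop).eventually_ge_atTop _
  have ev3 : ∀ᶠ X : ℝ in atTop, Real.log (3 * X) ^ (ε / 2) ≤ 2 * Real.log X ^ (ε / 2) := by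
    have h1 : ∀ᶠ X : ℝ in atTop, Real.log (3 * X) / Real.log X ≤ 2 :=
      log3.eventually_le_const (by norm_num)
    filter_upwards [h1, eventually_gt_atTop (1 : ℝ)] with X h2 h3
    have hl : 0 < Real.log X := Real.log_pos h3
    rw [div_le_iff₀ hl] at h2
    calc Real.log (3 * X) ^ (ε / 2) ≤ (2 * Real.log X) ^ (ε / 2) :=
          Real.rpow_le_rpow (Real.log_nonneg (by linarith)) h2 (by positivity)
      _ = 2 ^ (ε / 2) * Real.log X ^ (ε / 2) := Real.mul_rpow (by norm_num) hl.le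
      _ ≤ 2 ^ (1 : ℝ) * Real.log X ^ (ε / 2) := by
          apply mul_le_mul_of_nonneg_right _ (by positivity)
          apply Real.rpow_le_rpow_of_exponent_le (by norm_num)
          linarith
      _ = _ := by rw [Real.rpow_one]
  have ev4 : ∀ᶠ X : ℝ in atTop, 2000 ≤ Real.log X ^ (1 - ε / 2) :=
    ((tendsto_rpow_atTop (by linarith)).comp hlogtop).eventually_ge_atTop _
  have ev5 : ∀ᶠ X : ℝ in atTop, 6 ≤ Real.log X ^ (ε / 2) :=
    ((tendsto_rpow_atTop (by positivity)).comp hlogtop).eventually_ge_atTop _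
  have hlim : Tendsto (fun X : ℝ => (Real.log (3 * X) / Real.log X) ^ a) atTop (𝓝 1) := by
    have := log3.rpow_const (p := a) (Or.inr ha0.le)
    rwa [Real.one_rpow] at this
  have ev6 : ∀ᶠ X : ℝ in atTop, (Real.log (3 * X) / Real.log X) ^ a ≤ 1 + δ / 4 :=
    hlim.eventually_le_const (by linarith)
  filter_upwards [hun, ev1, ev3, ev4, ev5, ev6, eventually_ge_atTop (Real.exp 1)] with
    X g1 g2 g3 g4 g5 g6 g7
  intro σ hσ
  have hX0 : 0 < X := lt_of_lt_of_le (Real.exp_pos _) g7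
  have hL1 : 1 ≤ Real.log X := by
    rw [Real.le_log_iff_exp_le hX0]; exact g7
  set L := Real.log X with hL
  have hL0 : 0 < L := by linarith
  have hX1 : 1 < X := (Real.log_pos_iff hX0.le).1 hL0
  have hL3 : L ≤ Real.log (3 * X) := Real.log_le_log hX0 (by linarith)
  set L3 := Real.log (3 * X) with hL3d
  have hL30 : 0 < L3 := by linarith
  have hpow : L ^ (ε / 2) * L ^ (1 - ε / 2) = L := by
    rw [← Real.rpow_add hL0]
    rw [show ε / 2 + (1 - ε / 2) = 1 by ring, Real.rpow_one]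
  have hpow2 : L ^ (ε / 2) * L ^ (ε / 2) = L ^ ε := by
    rw [← Real.rpow_add hL0]
    congr 1; ring
  have hLe0 : 0 < L ^ (ε / 2) := Real.rpow_pos_of_pos hL0 _
  have h2000 : 2000 * L ^ (ε / 2) ≤ L := by
    calc 2000 * L ^ (ε / 2) ≤ L ^ (1 - ε / 2) * L ^ (ε / 2) :=
          mul_le_mul_of_nonneg_right g4 hLe0.le
      _ = L := by rw [mul_comm]; exact hpow
  have hcond : ∀ ℓ : ℝ, L ≤ ℓ → ℓ ≤ L3 → L ≤ ℓ ^ a ∧ (C * u) ^ (C * u) ≤ (ℓ ^ a) ^ (1 / u) ∧
      1000 * (ℓ ^ a) ^ (1 / u) ≤ L ∧ X * Real.exp (-(L ^ ε)) ≤ X * Real.exp (-(3 * (ℓ ^ a) ^ (1 / u))) := by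
    intro ℓ h1 h2
    have hℓ0 : 0 < ℓ := by linarith
    have e1 : (ℓ ^ a) ^ (1 / u) = ℓ ^ (ε / 2) := by
      rw [← Real.rpow_mul hℓ0.le, hau]
    have h3 : L ^ (ε / 2) ≤ ℓ ^ (ε / 2) := Real.rpow_le_rpow hL0.le h1 (by positivity)
    have h4 : ℓ ^ (ε / 2) ≤ L3 ^ (ε / 2) := Real.rpow_le_rpow hℓ0.le h2 (by positivity)
    rw [e1]
    refine ⟨?_, g2.trans h3, by linarith, ?_⟩
    · calc L ≤ ℓ := h1
        _ = ℓ ^ (1 : ℝ) := (Real.rpow_one _).symm
        _ ≤ ℓ ^ a := Real.rpow_le_rpow_of_exponent_le (by linarith) ha.le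
    · apply mul_le_mul_of_nonneg_left _ hX0.le
      apply Real.exp_le_exp.2
      have h5 : 3 * ℓ ^ (ε / 2) ≤ 6 * L ^ (ε / 2) := by linarith
      have h6 : 6 * L ^ (ε / 2) ≤ L ^ (ε / 2) * L ^ (ε / 2) := mul_le_mul_of_nonneg_right g5 hLe0.le
      linarith
  have hfin : {n : ℕ | X < n ∧ (n : ℝ) < 3 * X ∧
        (4 * C * (a / ε)) ^ (-(4 * C * (a / ε))) ≤ σ * (R n (Real.log n ^ a) - 1)}.Finite := by
    apply (Set.finite_Iic ⌊3 * X⌋₊).subset
    rintro n ⟨_, h2, _⟩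
    exact Nat.le_floor h2.le
  have hLL : (L3 / L) ^ a * L ^ a = L3 ^ a := by
    rw [Real.div_rpow hL30.le hL0.le]
    have : 0 < L ^ a := Real.rpow_pos_of_pos hL0 _
    field_simp
  have hLa0 : 0 < L ^ a := Real.rpow_pos_of_pos hL0 _
  have hL3a : L3 ^ a ≤ (1 + δ / 4) * L ^ a := by
    rw [← hLL]
    exact mul_le_mul_of_nonneg_right g6 hLa0.le
  rcases hσ with h' | h'
  · -- plus
    obtain ⟨c1, c2, c3, c4⟩ := hcond L le_rfl hL3
    have hres := g1 u (L ^ a) σ hu1 c1 c2 c3 (Or.inl h')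
    refine c4.trans (hres.trans ?_)
    have hsub : {n : ℕ | X < n ∧ (n : ℝ) < 3 * X ∧ (C * u) ^ (-(C * u)) ≤ σ * (R n (L ^ a) - 1)} ⊆
        {n : ℕ | X < n ∧ (n : ℝ) < 3 * X ∧
          (4 * C * (a / ε)) ^ (-(4 * C * (a / ε))) ≤ σ * (R n (Real.log n ^ a) - 1)} := by
      rintro n ⟨h1, h2, h3⟩
      refine ⟨h1, h2, ?_⟩
      rw [h', one_mul] at h3 ⊢
      have hn1 : (1 : ℝ) < n := by linarith
      have hn : 1 ≤ n := by exact_mod_cast hn1.le
      have hl1 : L ≤ Real.log n := Real.log_le_log hX0 h1.le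
      have hl2 : Real.log n ≤ L3 := Real.log_le_log (by linarith) h2.le
      have hln0 : 0 < Real.log n := by linarith
      have hna : L ^ a ≤ Real.log n ^ a := Real.rpow_le_rpow hL0.le hl1 ha0.le
      have hnb : Real.log n ^ a ≤ L3 ^ a := Real.rpow_le_rpow hln0.le hl2 ha0.le
      have h4 := R_mono hn hLa0 hna
      have h5 : (1 + δ) * L ^ a ≤ R n (Real.log n ^ a) * Real.log n ^ a := by
        refine le_trans ?_ h4
        apply mul_le_mul_of_nonneg_right _ hLa0.le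
        linarith
      have h6 : (1 + δ / 2) * Real.log n ^ a ≤ R n (Real.log n ^ a) * Real.log n ^ a := by
        refine le_trans ?_ h5
        calc (1 + δ / 2) * Real.log n ^ a ≤ (1 + δ / 2) * ((1 + δ / 4) * L ^ a) :=
              mul_le_mul_of_nonneg_left (hnb.trans hL3a) (by linarith)
          _ = ((1 + δ / 2) * (1 + δ / 4)) * L ^ a := by ring
          _ ≤ (1 + δ) * L ^ a := by
              apply mul_le_mul_of_nonneg_right _ hLa0.le
              nlinarith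
      have h7 : 0 < Real.log n ^ a := Real.rpow_pos_of_pos hln0 _
      have h8 := le_of_mul_le_mul_right h6 h7
      linarith
    exact_mod_cast Set.ncard_le_ncard hsub hfin
  · -- minus
    obtain ⟨c1, c2, c3, c4⟩ := hcond L3 hL3 le_rfl
    have hres := g1 u (L3 ^ a) σ hu1 c1 c2 c3 (Or.inr h')
    refine c4.trans (hres.trans ?_)
    have hsub : {n : ℕ | X < n ∧ (n : ℝ) < 3 * X ∧ (C * u) ^ (-(C * u)) ≤ σ * (R n (L3 ^ a) - 1)} ⊆
        {n : ℕ | X < n ∧ (n : ℝ) < 3 * X ∧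
          (4 * C * (a / ε)) ^ (-(4 * C * (a / ε))) ≤ σ * (R n (Real.log n ^ a) - 1)} := by
      rintro n ⟨h1, h2, h3⟩
      refine ⟨h1, h2, ?_⟩
      rw [h'] at h3 ⊢
      have hn1 : (1 : ℝ) < n := by linarith
      have hn : 1 ≤ n := by exact_mod_cast hn1.le
      have hl1 : L ≤ Real.log n := Real.log_le_log hX0 h1.le
      have hl2 : Real.log n ≤ L3 := Real.log_le_log (by linarith) h2.le
      have hln0 : 0 < Real.log n := by linarith
      have hna : L ^ a ≤ Real.log n ^ a := Real.rpow_le_rpow hL0.le hl1 ha0.le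
      have hnb : Real.log n ^ a ≤ L3 ^ a := Real.rpow_le_rpow hln0.le hl2 ha0.le
      have hla0 : 0 < Real.log n ^ a := Real.rpow_pos_of_pos hln0 _
      have hL3a0 : 0 < L3 ^ a := Real.rpow_pos_of_pos hL30 _
      have h4 := R_mono hn hla0 hnb
      have h5 : R n (Real.log n ^ a) * Real.log n ^ a ≤ (1 - δ) * L3 ^ a := by
        refine h4.trans ?_
        apply mul_le_mul_of_nonneg_right _ hL3a0.le
        linarith
      have h6 : R n (Real.log n ^ a) * Real.log n ^ a ≤ (1 - δ / 2) * Real.log n ^ a := by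
        refine h5.trans ?_
        calc (1 - δ) * L3 ^ a ≤ (1 - δ) * ((1 + δ / 4) * Real.log n ^ a) := by
              apply mul_le_mul_of_nonneg_left _ (by linarith)
              exact hL3a.trans (mul_le_mul_of_nonneg_left hna (by linarith))
          _ = ((1 - δ) * (1 + δ / 4)) * Real.log n ^ a := by ring
          _ ≤ (1 - δ / 2) * Real.log n ^ a := by
              apply mul_le_mul_of_nonneg_right _ hla0.le
              nlinarith
      have h8 := le_of_mul_le_mul_right h6 hla0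
      linarith
    exact_mod_cast Set.ncard_le_ncard hsub hfin

end Pool.Agent.J4H72.MF
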